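import Pool.Agent.Lib_helper41.TK.Defs
import Pool.Agent.Lib_helper68.KSLF.BLR

/-! TK, block GA. -/

set_option autoImplicit false

namespace Pool.Agent.TK

open Pool.Agent.LEV Pool.Agent.LVB Pool.Agent.KSL
open Pool.Agent.LK (PQ)
open Pool.Agent.FG61 (mu phi cc ff AA Lam)
open Complex MeasureTheory Filter Topology UpperHalfPlane ModularGroup ProbabilityTheory
open scoped MatrixGroups Modular ENNReal ModularForm ComplexConjugate ContDiff

section
variable {N : ℕ} [Fact N.Prime]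

/-- the rays as an integral over the lower half of the Ford domain -/
theorem gbulk_eq {T : ℝ} {ρ : ℝ → ℝ} (hρ : Ker T ρ) (f : S2 N) (Q : ℕ) (w : ℕ → ℕ → ℂ) :
    ∑ c ∈ Finset.Icc 1 Q, ∑ j ∈ RR c, w c j *
      (∫ y in (2 * rq N c)..(2 / Real.sqrt N), ∫ t : ℝ,
        (ρ t : ℂ) * (1 - (t : ℂ) * Complex.I) * ev f ((j : ℝ) / c + t * y) y) =
    ∫ z in {z : ℂ | 0 < z.im ∧ z.im < 2 / Real.sqrt N},
      f (UpperHalfPlane.ofComplex z) * gph N Q w ρ z.re z.im := by
  have hN : (0 : ℝ) < N := by exact_mod_cast (Fact.out : N.Prime).pos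
  have hs : 0 < Real.sqrt N := Real.sqrt_pos.mpr hN
  set R := 2 / Real.sqrt N with hR
  have hq : ∀ q ∈ Finset.Icc 1 Q, 0 < 2 * rq N q ∧ 2 * rq N q ≤ R := by
    intro q hq
    have h1 : (1 : ℝ) ≤ q := by exact_mod_cast (Finset.mem_Icc.mp hq).1
    unfold rq
    refine ⟨by positivity, ?_⟩
    rw [hR, mul_one_div]
    apply div_le_div_of_nonneg_left (by norm_num) hs
    nlinarith
  have hm : MeasurableSet {z : ℂ | 0 < z.im ∧ z.im < R} := BLR_meas 0 R
  -- one term
  have hterm : ∀ q ∈ Finset.Icc 1 Q, ∀ a : ℝ,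
      (∫ y in (2 * rq N q)..R, ∫ t : ℝ,
        (ρ t : ℂ) * (1 - (t : ℂ) * Complex.I) * ev f (a + t * y) y) =
      ∫ z in {z : ℂ | 0 < z.im ∧ z.im < R},
        ({z : ℂ | 2 * rq N q < z.im ∧ z.im < R}.indicator (BLR_G f ρ a)) z := by
    intro q hq' a
    rw [BLR_one hρ f a (hq q hq').1 (hq q hq').2, setIntegral_indicator (BLR_meas _ _)]
    congr 2
    ext z
    constructor
    · intro h
      exact ⟨⟨(hq q hq').1.trans h.1, h.2⟩, h⟩
    · intro h
      exact h.2
  have hint : ∀ q ∈ Finset.Icc 1 Q, ∀ a : ℝ,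
      IntegrableOn ({z : ℂ | 2 * rq N q < z.im ∧ z.im < R}.indicator (BLR_G f ρ a))
        {z : ℂ | 0 < z.im ∧ z.im < R} := by
    intro q hq' a
    exact ((integrable_indicator_iff (BLR_meas _ _)).mpr
      (BLR_int hρ f a (hq q hq').1)).integrableOn
  have e1 : ∑ q ∈ Finset.Icc 1 Q, ∑ j ∈ RR q, w q j *
      (∫ y in (2 * rq N q)..R, ∫ t : ℝ,
        (ρ t : ℂ) * (1 - (t : ℂ) * Complex.I) * ev f ((j : ℝ) / q + t * y) y) =
      ∫ z in {z : ℂ | 0 < z.im ∧ z.im < R}, ∑ q ∈ Finset.Icc 1 Q, ∑ j ∈ RR q, w q j *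
        ({z : ℂ | 2 * rq N q < z.im ∧ z.im < R}.indicator (BLR_G f ρ ((j : ℝ) / q))) z := by
    rw [integral_finsetSum]
    · apply Finset.sum_congr rfl
      intro q hq'
      rw [integral_finsetSum]
      · apply Finset.sum_congr rfl
        intro j _
        rw [integral_const_mul]
        congr 1
        exact hterm q hq' _
      · intro j _
        exact (hint q hq' _).const_mul _
    · intro q hq'
      apply integrable_finsetSum
      intro j _
      exact (hint q hq' _).const_mul _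
  rw [e1]
  apply setIntegral_congr_fun hm
  intro z hz
  simp only
  unfold gph
  rw [Finset.mul_sum, Finset.sum_filter]
  apply Finset.sum_congr rfl
  intro q _
  by_cases h : 2 * rq N q < z.im
  · rw [if_pos h, Finset.mul_sum]
    apply Finset.sum_congr rfl
    intro j _
    rw [Set.indicator_of_mem (show z ∈ {z : ℂ | 2 * rq N q < z.im ∧ z.im < R} from ⟨h, hz.2⟩)]
    unfold BLR_G
    ring
  · rw [if_neg h]
    apply Finset.sum_eq_zero
    intro j _
    rw [Set.indicator_of_notMem, mul_zero]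
    exact fun h' => h h'.1

end

end Pool.Agent.TK
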