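import Pool.Agent.Lib_helper41.TK.W.TB
import Pool.Agent.Lib_helper68.KSLF.WRQ

/-! TK, block TE. -/

set_option autoImplicit false

namespace Pool.Agent.TK

open Pool.Agent.LEV Pool.Agent.LVB Pool.Agent.KSL
open Pool.Agent.LK (PQ)
open Pool.Agent.FG61 (mu phi cc ff AA Lam)
open Complex MeasureTheory Filter Topology UpperHalfPlane ModularGroup ProbabilityTheory
open scoped MatrixGroups Modular ENNReal ModularForm ComplexConjugate ContDiff

open Classical in
/-- the mean square of the Fourier coefficients -/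
theorem ww_sqC {δ : ℝ} (h0 : 0 < δ) (h1 : δ < 1 / 4) {ε : ℝ} (hε : 0 < ε) : ∃ N₀ : ℕ,
    ∀ n : ℕ, N₀ ≤ n → ∀ q : ℕ, 1 ≤ q → ∀ (A : ℕ) (a : ℕ → ℝ),
      (∀ k, a k ≠ 0 → smooth (zz n) k ∧ k ≤ A ∧ k.Coprime q) → ∀ X : ℕ,
      ∑ m ∈ (Finset.Icc 1 X).filter (fun m => m.Coprime q),
        WW (QA (MM δ n) 2 A) (wAC q (zz n) (MM δ n) 2 A a) m ^ 2 ≤
        ∑ m ∈ (Finset.Icc 1 X).filter (fun m => smooth (zz n) m ∧ m.Coprime q), Ph A a m ^ 2 +
          (1 + ε) * X * cnC q (zz n) A a / Real.log (MM δ n) := by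
  obtain ⟨N₁, hN₁⟩ := wr_sq h0 h1 hε
  obtain ⟨N₂, hN₂⟩ := wrq_len h1 1
  refine ⟨max N₁ N₂, fun N hN q hq A a ha' X => ?_⟩
  have ha : ∀ k, a k ≠ 0 → smooth (zz N) k ∧ k ≤ A := fun k hk => ⟨(ha' k hk).1, (ha' k hk).2.1⟩
  have hsq := hN₁ N ((le_max_left _ _).trans hN)
  obtain ⟨hM2, hL1⟩ := hN₂ N ((le_max_right _ _).trans hN)
  set M := MM δ N with hM
  set L := Real.log M with hL
  set z := zz N with hz
  have hL0 : 0 < L := by linarith
  have hM1 : (1 : ℝ) ≤ M := by exact_mod_cast (by omega : 1 ≤ M)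
  -- pointwise factorisation
  have hpt : ∀ n ∈ (Finset.Icc 1 X).filter (fun m => m.Coprime q),
      WW (QA M 2 A) (wAC q z M 2 A a) n ^ 2 =
      Ph A a (smp z n) ^ 2 * Wr z M 2 (rop z n) ^ 2 := by
    intro n hn
    have hn1 : 1 ≤ n := (Finset.mem_Icc.1 (Finset.mem_filter.1 hn).1).1
    rw [ww_factorC ha' (by norm_num) hn1 (Finset.mem_filter.1 hn).2, ph_smp ha hn1,
      wr_rop z M 2 hn1, mul_pow]
  rw [Finset.sum_congr rfl hpt]
  set S := (Finset.Icc 1 X).filter (fun m => smooth z m ∧ m.Coprime q) with hS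
  have hmaps : ∀ n ∈ (Finset.Icc 1 X).filter (fun m => m.Coprime q), smp z n ∈ S := by
    intro n hn
    have hnI := (Finset.mem_filter.1 hn).1
    have hn1 : 1 ≤ n := (Finset.mem_Icc.1 hnI).1
    obtain ⟨e1, _, e3, _, e5⟩ := smp_rop (z := z) hn1
    rw [hS, Finset.mem_filter, Finset.mem_Icc]
    refine ⟨⟨Nat.one_le_iff_ne_zero.mpr e3.1, ?_⟩, e3,
      Nat.Coprime.coprime_dvd_left (Dvd.intro _ e1) (Finset.mem_filter.1 hn).2⟩
    calc smp z n ≤ smp z n * rop z n := Nat.le_mul_of_pos_right _ e5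
      _ = n := e1
      _ ≤ X := (Finset.mem_Icc.1 hnI).2
  rw [← Finset.sum_fiberwise_of_maps_to hmaps]
  -- each fibre
  have hfib : ∀ m ∈ S, ∑ n ∈ ((Finset.Icc 1 X).filter (fun m => m.Coprime q)).filter
        (fun n => smp z n = m),
      Ph A a (smp z n) ^ 2 * Wr z M 2 (rop z n) ^ 2 ≤
      Ph A a m ^ 2 + (1 + ε) * X / L * (Ph A a m ^ 2 / m) := by
    intro m hm
    rw [hS, Finset.mem_filter, Finset.mem_Icc] at hm
    have hfs : ((Finset.Icc 1 X).filter (fun m => m.Coprime q)).filter (fun n => smp z n = m) ⊆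
        (Finset.Icc 1 X).filter (fun n => smp z n = m) :=
      Finset.filter_subset_filter _ (Finset.filter_subset _ _)
    refine (Finset.sum_le_sum_of_subset_of_nonneg hfs fun _ _ _ => by positivity).trans ?_
    have hm0 : (0 : ℝ) < m := by exact_mod_cast hm.1.1
    have e1 : ∑ n ∈ (Finset.Icc 1 X).filter (fun n => smp z n = m),
        Ph A a (smp z n) ^ 2 * Wr z M 2 (rop z n) ^ 2 =
        Ph A a m ^ 2 * ∑ n ∈ (Finset.Icc 1 X).filter (fun n => smp z n = m), Wr z M 2 (rop z n) ^ 2 := by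
      rw [Finset.mul_sum]
      refine Finset.sum_congr rfl fun n hn => ?_
      rw [(Finset.mem_filter.1 hn).2]
    have hinj : Set.InjOn (rop z) (((Finset.Icc 1 X).filter (fun n => smp z n = m) : Finset ℕ) : Set ℕ) := by
      intro n hn n' hn' h
      rw [Finset.mem_coe, Finset.mem_filter, Finset.mem_Icc] at hn hn'
      rw [← (smp_rop (z := z) hn.1.1).1, ← (smp_rop (z := z) hn'.1.1).1, h, hn.2, hn'.2]
    have e2 : ∑ n ∈ (Finset.Icc 1 X).filter (fun n => smp z n = m), Wr z M 2 (rop z n) ^ 2 =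
        ∑ r ∈ ((Finset.Icc 1 X).filter (fun n => smp z n = m)).image (rop z), Wr z M 2 r ^ 2 :=
      (Finset.sum_image (f := fun r => Wr z M 2 r ^ 2) hinj).symm
    have hsub : ((Finset.Icc 1 X).filter (fun n => smp z n = m)).image (rop z) ⊆
        insert 1 ((Finset.Icc 2 (X / m)).filter (fun r => rough z r)) := by
      intro r hr
      rw [Finset.mem_image] at hr
      obtain ⟨n, hn, hnr⟩ := hr
      rw [Finset.mem_filter, Finset.mem_Icc] at hn
      obtain ⟨f1, _, _, f4, f5⟩ := smp_rop (z := z) hn.1.1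
      rw [hnr] at f1 f4 f5
      rw [hn.2] at f1
      rw [Finset.mem_insert, Finset.mem_filter, Finset.mem_Icc]
      rcases Nat.eq_or_lt_of_le f5 with h | h
      · exact Or.inl h.symm
      · refine Or.inr ⟨⟨h, ?_⟩, f4⟩
        rw [Nat.le_div_iff_mul_le hm.1.1, mul_comm]
        calc m * r = n := f1
          _ ≤ X := hn.1.2
    have e3 : ∑ r ∈ ((Finset.Icc 1 X).filter (fun n => smp z n = m)).image (rop z), Wr z M 2 r ^ 2 ≤
        1 + ∑ r ∈ (Finset.Icc 2 (X / m)).filter (fun r => rough z r), Wr z M 2 r ^ 2 := by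
      refine (Finset.sum_le_sum_of_subset_of_nonneg hsub fun _ _ _ => sq_nonneg _).trans ?_
      rw [Finset.sum_insert (by simp), wr_one hM2]
      norm_num
    have e4 : ∑ r ∈ (Finset.Icc 2 (X / m)).filter (fun r => rough z r), Wr z M 2 r ^ 2 ≤
        (1 + ε) * X / L / m := by
      refine (hsq (X / m)).trans ?_
      have hY0 : (0 : ℝ) ≤ ((X / m : ℕ) : ℝ) := Nat.cast_nonneg _
      have hYle : ((X / m : ℕ) : ℝ) ≤ (X : ℝ) / m := Nat.cast_div_le
      have hlog : Real.log (min ((X / m : ℕ) : ℝ) M) ≤ L := by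
        have hXm : 1 ≤ X / m := (Nat.one_le_div_iff hm.1.1).mpr hm.1.2
        have hXm' : (1 : ℝ) ≤ ((X / m : ℕ) : ℝ) := by exact_mod_cast hXm
        exact Real.log_le_log (lt_min (by linarith) (by linarith)) (min_le_right _ _)
      rw [div_le_iff₀ (by positivity)]
      calc ((X / m : ℕ) : ℝ) * (Real.log (min ((X / m : ℕ) : ℝ) M) + ε * L) ≤
            ((X / m : ℕ) : ℝ) * (L + ε * L) :=
            mul_le_mul_of_nonneg_left (by linarith) hY0
        _ ≤ ((X : ℝ) / m) * (L + ε * L) :=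
            mul_le_mul_of_nonneg_right hYle (by positivity)
        _ = (1 + ε) * X / L / m * L ^ 2 := by field_simp
    have hP0 : 0 ≤ Ph A a m ^ 2 := sq_nonneg _
    rw [e1, e2]
    calc Ph A a m ^ 2 * ∑ r ∈ ((Finset.Icc 1 X).filter (fun n => smp z n = m)).image (rop z),
          Wr z M 2 r ^ 2 ≤ Ph A a m ^ 2 * (1 + (1 + ε) * X / L / m) :=
          mul_le_mul_of_nonneg_left (e3.trans (by linarith)) hP0
      _ = _ := by ring
  refine (Finset.sum_le_sum hfib).trans ?_
  rw [Finset.sum_add_distrib, ← Finset.mul_sum]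
  have hcn : ∑ m ∈ S, Ph A a m ^ 2 / m ≤ cnC q z A a := by
    have hsm0 := (phi_al (z := z) ha).1
    have hsm : Summable (fun m : ℕ => if smooth z m ∧ m.Coprime q then Ph A a m ^ 2 / m else 0) := by
      refine Summable.of_nonneg_of_le (fun m => ?_) (fun m => ?_) hsm0
      · split_ifs
        · positivity
        · exact le_refl _
      · by_cases h : smooth z m
        · rw [if_pos h]
          split_ifs
          · exact le_refl _
          · positivity
        · rw [if_neg h, if_neg (fun h' => h h'.1)]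
    have e1 : ∑ m ∈ S, Ph A a m ^ 2 / m =
        ∑ m ∈ S, (if smooth z m ∧ m.Coprime q then Ph A a m ^ 2 / m else 0) := by
      refine Finset.sum_congr rfl fun m hm => ?_
      rw [if_pos (Finset.mem_filter.1 hm).2]
    rw [e1]
    unfold cnC
    refine hsm.sum_le_tsum S fun m _ => ?_
    split_ifs
    · positivity
    · exact le_refl _
  have hfin : (1 + ε) * X / L * ∑ m ∈ S, Ph A a m ^ 2 / m ≤ (1 + ε) * X * cnC q z A a / L := by
    calc (1 + ε) * X / L * ∑ m ∈ S, Ph A a m ^ 2 / m ≤ (1 + ε) * X / L * cnC q z A a :=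
          mul_le_mul_of_nonneg_left hcn (by positivity)
      _ = _ := by ring
  linarith

end Pool.Agent.TK
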